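import Pool.Agent.Q179.Psi.Space

/-!
A regular space (the space of Mrówka over an infinite maximal almost disjoint family) in which
Alice has no winning strategy in the game G(X), but which is not totally paracompact.
-/

namespace Pool.Agent.Results.MP_2f53c7_gt.AliceLosesNotTotallyParacompact

open Q179.Psi

theorem result : ∃ (X : Type) (_ : TopologicalSpace X), Infinite X ∧ T3Space X ∧
    ¬ AliceWins X ∧ ¬ TotallyParacompact X := by
  obtain ⟨X, t, h1, h2, h3, h4⟩ := exists_space
  exact ⟨X, t, h1, h2, not_aliceWins h3, h4⟩

end Pool.Agent.Results.MP_2f53c7_gt.AliceLosesNotTotallyParacompact
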